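import Mathlib
import Pool.Agent.Lib.helper23.PB
import Pool.Agent.Lib.helper23.Rec

set_option autoImplicit false

namespace Pool.Agent.Results.MP_ff24f1_gt.Counter

open Set Filter Topology TopologicalSpace Pool.Agent.Lib.helper23.PB Pool.Agent.Lib.helper23.PB.Dat

abbrev W : Type := (Cardinal.aleph 1).ord.ToType

lemma W_Iio (a : W) : (Iio a).Countable := by
  rw [← Cardinal.le_aleph0_iff_set_countable, ← Order.lt_succ_iff, Cardinal.succ_aleph0]
  exact Cardinal.mk_Iio_toType_ord_lt a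

lemma W_unc : ¬ (univ : Set W).Countable := by
  rw [← Cardinal.le_aleph0_iff_set_countable, Cardinal.mk_univ, Cardinal.mk_ord_toType, not_le]
  exact Cardinal.aleph0_lt_aleph_one

instance : (cocountable : Filter W).NeBot :=
  ⟨fun h => W_unc (compl_empty ▸ mem_cocountable.1 (empty_mem_iff_bot.2 h))⟩

abbrev D : Type := (W × (W → ℝ)) × ℚ

noncomputable def cut (b : W → ℝ) (a : W) : W × (W → ℝ) := (a, fun c => if c < a then b c else 0)

noncomputable def tt (b : W → ℝ) : ℝ := Classical.epsilon fun t => MapClusterPt t cocountable b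

noncomputable def F (b : W → ℝ) : Filter D :=
  cocountable ⊓ 𝓟 (range (cut b) ×ˢ univ) ⊓ comap (fun d => (d.2 : ℝ)) (𝓝 (tt b))

lemma key {b : W → ℝ} {E : Set D}
    (h : ∀ U ∈ 𝓝 (tt b), ∃ᶠ a in cocountable, ∃ q : ℚ, (q : ℝ) ∈ U ∧ (cut b a, q) ∈ E) :
    Eᶜ ∉ F b := fun k => by
  obtain ⟨_, k1, _, ⟨U, u1, u2⟩, k2⟩ := mem_inf_iff.1 k
  have := (mem_cocountable.1 (mem_inf_principal.1 k1)).image fun d => d.1.1
  rw [← compl_compl (_ '' _), ← mem_cocountable] at this
  obtain ⟨a, ⟨q, a1, a2⟩, a3⟩ := ((h U u1).and_eventually this).exists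
  exact k2.ge ⟨by_contra fun c => a3 ⟨(cut b a, q), fun e => c (e ⟨⟨a, rfl⟩, trivial⟩), rfl⟩,
    u2 a1⟩ a2

noncomputable def P : Dat D (W → ℝ) where
  A b := range (cut b) ×ˢ univ
  F := F
  ne b := ⟨fun h => key (E := univ) (fun U hU => .of_forall fun _ => by
    simpa using Rat.denseRange_cast.mem_nhds hU) (h ▸ mem_bot)⟩
  mem _ := mem_inf_of_left (mem_inf_of_right (mem_principal_self _))
  co _ := inf_le_left.trans inf_le_left
  ad b c h := by
    obtain ⟨x, hx⟩ := Function.ne_iff.1 h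
    refine ((((W_Iio x).insert x).image (cut b)).prod countable_univ).mono ?_
    rintro ⟨_, q⟩ ⟨⟨⟨a, rfl⟩, -⟩, ⟨a', e⟩, -⟩
    obtain rfl : a' = a := congrArg Prod.fst e
    refine ⟨⟨_, (le_of_not_gt fun k => hx ?_).eq_or_lt, rfl⟩, trivial⟩
    simpa [cut, k] using (congrFun (congrArg Prod.snd e) x).symm

lemma bdry {S : Set ℚ} (h0 : 0 ∈ S) (h1 : 1 ∉ S) :
    ∃ t ∈ Icc (0 : ℝ) 1, t ∈ closure ((↑) '' S) ∧ t ∈ closure ((↑) '' Sᶜ) :=
  isPreconnected_closed_iff.1 isPreconnected_Icc _ _ isClosed_closure isClosed_closure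
    (fun x _ => by
      rw [← closure_union, ← image_union, union_compl_self, image_univ]
      exact Rat.denseRange_cast x)
    ⟨0, by simp, subset_closure ⟨0, h0, by simp⟩⟩ ⟨1, by simp, subset_closure ⟨1, h1, by simp⟩⟩

lemma split {E : Set D} (h0 : ∀ s, (s, 0) ∈ E) (h1 : ∀ s, (s, 1) ∉ E) :
    ∃ b, E ∉ F b ∧ Eᶜ ∉ F b := by
  choose t t1 t2 using fun s => bdry (S := {q | (s, q) ∈ E}) (h0 s) (h1 s)
  obtain ⟨b, hb⟩ := Pool.Agent.Lib.helper23.trans_rec (fun a b r => r = t (cut b a))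
    (fun a f g s h e => e.trans (congrArg t (Prod.ext rfl (funext fun c => by
      by_cases k : c < a <;> simp [cut, k, h])))) fun _ _ _ => ⟨_, rfl⟩
  have c : MapClusterPt (tt b) cocountable b := Classical.epsilon_spec
    ((isCompact_Icc.exists_mapClusterPt (f := cocountable) (u := b) (le_principal_iff.2
      (mem_map.2 (univ_mem' fun a => (mem_of_eq_of_mem (hb a) (t1 _) : b a ∈ _))))).imp fun _ h => h.2)
  have k {R : Set D} (h : ∀ s, t s ∈ closure ((↑) '' {q | (s, q) ∈ R})) : Rᶜ ∉ F b :=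
    key fun U hU => (mapClusterPt_iff_frequently.1 c _ (interior_mem_nhds.2 hU)).mono fun a ha => by
      obtain ⟨_, x, q, y, rfl⟩ := mem_closure_iff.1 (h (cut b a)) _ isOpen_interior (hb a ▸ ha)
      exact ⟨q, interior_subset x, y⟩
  exact ⟨b, compl_compl E ▸ k fun s => (t2 s).2, k fun s => (t2 s).1⟩

theorem result : ∃ (X : Type) (_ : TopologicalSpace X) (B : Set (Set X)),
    T35Space X ∧ (∀ U ∈ B, IsClopen U) ∧ IsTopologicalBasis B ∧
    (∀ C D : Set (Set X), C ⊆ B → C.Countable → D ⊆ B → (∀ U ∈ C, ∀ V ∈ D, Disjoint U V) →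
      ∃ W ∈ B, (∀ U ∈ C, U ⊆ W) ∧ ∀ V ∈ D, Disjoint W V) ∧
    @CompactSpace X (generateFrom ((fun U => (closure U)ᶜ) '' B)) ∧
    ¬ IsTopologicalBasis {s : Set (StoneCech X) | IsClopen s} := by
  refine ⟨P.X, inferInstance, P.B, inferInstance, clopenB, basis, pretty, cocompact, fun h => ?_⟩
  haveI := totallySeparatedSpace_of_t0_of_basis_clopen h
  obtain ⟨g, g1, g2⟩ := extend (P := P) (fun d => projIcc (0 : ℝ) 1 zero_le_one d.2) fun b =>
    ⟨_, (continuous_projIcc.tendsto _).comp (tendsto_comap.mono_left inf_le_right)⟩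
  have c := continuous_stoneCechExtend g1
  have e (d) : stoneCechExtend g1 (stoneCechUnit (P.pu d)) = _ :=
    (stoneCechExtend_stoneCechUnit g1 _).trans (g2 d)
  obtain ⟨V, v1, v2, v3⟩ := exists_clopen_of_closed_subset_open
    ((isClosed_singleton (x := 0)).preimage c) ((isOpen_compl_singleton (x := 1)).preimage c)
    fun x (a : _ = _) (b : _ = _) => zero_ne_one (a.symm.trans b)
  obtain ⟨b, b1, b2⟩ := split (E := P.pu ⁻¹' (stoneCechUnit ⁻¹' V))
    (fun s => v2 ((e _).trans (by simp))) fun s a => v3 a ((e _).trans (by simp))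
  have v := v1.preimage continuous_stoneCechUnit
  by_cases k : P.pt (.inr b) ∈ stoneCechUnit ⁻¹' V
  exacts [b1 (tr v.2 k), b2 (tr v.compl.2 k)]

end Pool.Agent.Results.MP_ff24f1_gt.Counter
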